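import Pool.Agent.W839.IM.Cnt

/-!
# IM-EXPM: expansion of the exponential moment
-/

set_option autoImplicit false

namespace Pool.Agent.W839.IM

open Finset Filter Pool.Agent.W262.RK Pool.Agent.W307.IM

lemma one_le_kT (K0 T : ℕ) : 1 ≤ kT K0 T := by
  unfold kT
  omega

lemma yT_pow_le (K0 T : ℕ) : ((yT K0 T : ℕ) : ℝ) ^ kT K0 T ≤ (T : ℝ) ^ ((1 : ℝ) / 4) := by
  have hK : (0 : ℝ) < kT K0 T := by exact_mod_cast one_le_kT K0 T
  have h0 : (0 : ℝ) ≤ (T : ℝ) ^ (1 / (4 * (kT K0 T : ℝ))) := by positivity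
  have h1 : ((yT K0 T : ℕ) : ℝ) ≤ (T : ℝ) ^ (1 / (4 * (kT K0 T : ℝ))) := Nat.floor_le h0
  calc ((yT K0 T : ℕ) : ℝ) ^ kT K0 T ≤ ((T : ℝ) ^ (1 / (4 * (kT K0 T : ℝ)))) ^ kT K0 T :=
        pow_le_pow_left₀ (Nat.cast_nonneg _) h1 _
    _ = (T : ℝ) ^ ((1 : ℝ) / 4) := by
      rw [← Real.rpow_natCast, ← Real.rpow_mul (Nat.cast_nonneg _)]
      congr 1
      field_simp

lemma one_le_yT (K0 T : ℕ) (hT : 1 ≤ T) : 1 ≤ yT K0 T := by
  unfold yT
  apply Nat.le_floor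
  rw [Nat.cast_one]
  apply Real.one_le_rpow
  · exact_mod_cast hT
  · positivity

lemma me_le {A K0 T e : ℕ} (hT : 1 ≤ T) (he : e ∈ ME A K0 T) :
    (e : ℝ) ≤ (T : ℝ) ^ ((1 : ℝ) / 4) := by
  refine le_trans ?_ (yT_pow_le K0 T)
  have h1 : e ≤ yT K0 T ^ kT K0 T := by
    calc e = ∏ p ∈ e.primeFactors, p := (Nat.prod_primeFactors_of_squarefree (me_sqf he)).symm
      _ ≤ yT K0 T ^ e.primeFactors.card := by
        apply Finset.prod_le_pow_card
        intro p hp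
        exact (me_prime he (Nat.prime_of_mem_primeFactors hp) (Nat.dvd_of_mem_primeFactors hp)).2
      _ ≤ yT K0 T ^ kT K0 T := Nat.pow_le_pow_right (one_le_yT K0 T hT) (me_dv he).2
  exact_mod_cast h1

lemma me_pos {A K0 T e : ℕ} (he : e ∈ ME A K0 T) : 0 < e := dv_pos (me_dv he).1

lemma card_ME (A K0 T : ℕ) (hT : 1 ≤ T) :
    ((ME A K0 T).card : ℝ) ≤ (T : ℝ) ^ ((1 : ℝ) / 4) := by
  have h0 : (0 : ℝ) ≤ (T : ℝ) ^ ((1 : ℝ) / 4) := by positivity
  have h1 : ME A K0 T ⊆ Icc 1 ⌊(T : ℝ) ^ ((1 : ℝ) / 4)⌋₊ := by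
    intro e he
    rw [mem_Icc]
    exact ⟨me_pos he, Nat.le_floor (me_le hT he)⟩
  have h2 : (ME A K0 T).card ≤ ⌊(T : ℝ) ^ ((1 : ℝ) / 4)⌋₊ := by
    calc (ME A K0 T).card ≤ _ := card_le_card h1
      _ = _ := by simp
  calc ((ME A K0 T).card : ℝ) ≤ (⌊(T : ℝ) ^ ((1 : ℝ) / 4)⌋₊ : ℝ) := by exact_mod_cast h2
    _ ≤ _ := Nat.floor_le h0

lemma inv_ME (A K0 T : ℕ) (hT : 1 ≤ T) :
    ∑ e ∈ ME A K0 T, ((e : ℝ))⁻¹ ≤ 1 + Real.log T := by
  have hT' : (1 : ℝ) ≤ T := by exact_mod_cast hT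
  have h1 : ME A K0 T ⊆ Icc 1 T := by
    intro e he
    rw [mem_Icc]
    refine ⟨me_pos he, ?_⟩
    have h2 := me_le hT he
    have h3 : (T : ℝ) ^ ((1 : ℝ) / 4) ≤ (T : ℝ) ^ (1 : ℝ) :=
      Real.rpow_le_rpow_of_exponent_le hT' (by norm_num)
    rw [Real.rpow_one] at h3
    exact_mod_cast h2.trans h3
  calc ∑ e ∈ ME A K0 T, ((e : ℝ))⁻¹ ≤ ∑ e ∈ Icc 1 T, ((e : ℝ))⁻¹ :=
        Finset.sum_le_sum_of_subset_of_nonneg h1 fun i _ _ => by positivity
    _ = ((harmonic T : ℚ) : ℝ) := by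
        rw [harmonic_eq_sum_Icc, Rat.cast_sum]
        exact Finset.sum_congr rfl fun i _ => by rw [Rat.cast_inv, Rat.cast_natCast]
    _ ≤ 1 + Real.log T := harmonic_le_one_add_log T

/-- one modulus, with the symbols -/
lemma ae_le {z : ℝ} (hz : 0 ≤ z) (hz1 : z ≤ 1) (A K0 T e : ℕ) (he : e ∈ ME A K0 T) :
    2 ^ e.primeFactors.card / (e : ℝ) * (AE z (wT A T) T e) ^ 2 ≤
      ∑ t ∈ Pr T, FF z (wT A T) e t.1 t.2 + (T + 2 * (T : ℝ) ^ 2 * (1 + kT K0 T) /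
        (wT A T) * ((e : ℝ))⁻¹) := by
  classical
  have he0 : 0 < e := me_pos he
  have he' : (0 : ℝ) < e := by exact_mod_cast he0
  have hw5 := five_le_wT A T
  have hw0 : 0 < wT A T := by omega
  have hw' : (0 : ℝ) < wT A T := by exact_mod_cast hw0
  have h1 := cauchy (cz z (wT A T)) (range (T + 1)) e (me_sqf he) (fun p hp hpe => by
    have := (me_prime he hp hpe).1
    omega)
  have h2 := mod_le hz hz1 T (wT A T) e
  have h3 := card_NC T (wT A T) e hw0 he0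
  have h4 : ((e.primeFactors.card : ℕ) : ℝ) ≤ kT K0 T := by exact_mod_cast (me_dv he).2
  have h5 : 2 * (T : ℝ) ^ 2 * (1 + e.primeFactors.card) / (e * wT A T) ≤
      2 * (T : ℝ) ^ 2 * (1 + kT K0 T) / (wT A T) * ((e : ℝ))⁻¹ := by
    rw [← div_eq_mul_inv, div_div, mul_comm (wT A T : ℝ) (e : ℝ)]
    apply div_le_div_of_nonneg_right _ (by positivity)
    apply mul_le_mul_of_nonneg_left _ (by positivity)
    linarith
  have h6 : AE z (wT A T) T e = ∑ a ∈ (range (T + 1)).filter (chi e), cz z (wT A T) a := by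
    unfold AE
    apply Finset.sum_congr _ (fun _ _ => rfl)
    apply Finset.filter_congr
    intro l _
    rfl
  have h7 : 2 ^ e.primeFactors.card / (e : ℝ) * (AE z (wT A T) T e) ^ 2 ≤
      ∑ a ∈ range (T + 1), ∑ b ∈ range (T + 1), FF z (wT A T) e a b := by
    rw [div_mul_eq_mul_div, div_le_iff₀ he', mul_comm _ (e : ℝ), h6]
    exact h1
  linarith

lemma lam_le (M : ℝ) (hM : 1 ≤ M) (K0 T : ℕ) (hL : 1 ≤ Real.log T) :
    M ^ kT K0 T ≤ M * (Real.log T) ^ (⌈(K0 : ℝ) * Real.log M⌉₊) := by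
  have hM0 : 0 < M := by linarith
  have hL0 : 0 < Real.log T := by linarith
  have hLL : 0 ≤ Real.log (Real.log T) := Real.log_nonneg hL
  have hx : 0 ≤ (K0 : ℝ) * Real.log (Real.log T) := by positivity
  unfold kT
  rw [pow_succ, mul_comm]
  apply mul_le_mul_of_nonneg_left _ hM0.le
  calc M ^ ⌊(K0 : ℝ) * Real.log (Real.log T)⌋₊ ≤ M ^ ((K0 : ℝ) * Real.log (Real.log T)) := by
        rw [← Real.rpow_natCast]
        exact Real.rpow_le_rpow_of_exponent_le hM (Nat.floor_le hx)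
    _ = (Real.log T) ^ ((K0 : ℝ) * Real.log M) := by
        rw [Real.rpow_def_of_pos hM0, Real.rpow_def_of_pos hL0]
        congr 1
        ring
    _ ≤ (Real.log T) ^ ((⌈(K0 : ℝ) * Real.log M⌉₊ : ℕ) : ℝ) :=
        Real.rpow_le_rpow_of_exponent_le hL (Nat.le_ceil _)
    _ = _ := Real.rpow_natCast _ _

theorem expm : EXPM := by
  intro s K0 hs
  have hκ : 0 ≤ (2 : ℝ) ^ s - 1 := by
    have := Real.one_le_rpow (x := 2) (z := s) (by norm_num) hs.le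
    linarith
  have hz0 : 0 ≤ (2 : ℝ) ^ (-s) := by positivity
  have hz1 : (2 : ℝ) ^ (-s) ≤ 1 := Real.rpow_le_one_of_one_le_of_nonpos (by norm_num) (by linarith)
  set κ : ℝ := (2 : ℝ) ^ s - 1 with hκd
  set z : ℝ := (2 : ℝ) ^ (-s) with hzd
  set M : ℝ := max 1 κ with hM
  have hM1 : 1 ≤ M := le_max_left _ _
  have hM0 : 0 < M := by linarith
  set c : ℕ := ⌈(K0 : ℝ) * Real.log M⌉₊ with hc
  refine ⟨c + 7, fun A hA => ?_⟩
  -- the eventual inequalities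
  have hlog : Tendsto (fun T : ℕ => Real.log (T : ℝ)) atTop atTop :=
    Real.tendsto_log_atTop.comp tendsto_natCast_atTop_atTop
  have hE1 : ∀ᶠ T : ℕ in atTop, max 1 (8 * M * (K0 + 2)) ≤ Real.log (T : ℝ) :=
    hlog.eventually_ge_atTop _
  have hE2 : ∀ᶠ T : ℕ in atTop, 2 * M * (Real.log (T : ℝ)) ^ (c + 4) ≤
      (T : ℝ) ^ ((3 : ℝ) / 4) := by
    have h1 := (isLittleO_log_rpow_rpow_atTop ((c + 4 : ℕ) : ℝ)
      (s := (3 : ℝ) / 4) (by norm_num)).def (c := 1 / (2 * M)) (by positivity)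
    have h2 := tendsto_natCast_atTop_atTop (R := ℝ) |>.eventually h1
    filter_upwards [h2, hE1] with T hT hT1
    have hL1 : 1 ≤ Real.log (T : ℝ) := (le_max_left _ _).trans hT1
    rw [Real.rpow_natCast, Real.norm_eq_abs, Real.norm_eq_abs, abs_of_nonneg (by positivity),
      abs_of_nonneg (by positivity)] at hT
    rw [one_div, inv_mul_eq_div, le_div_iff₀ (by positivity)] at hT
    linarith
  obtain ⟨T0, hT0⟩ := eventually_atTop.1 (hE1.and (hE2.and (eventually_ge_atTop 1)))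
  refine ⟨T0, fun T hT => ?_⟩
  obtain ⟨h1, h2, hT1⟩ := hT0 T hT
  have hL1 : 1 ≤ Real.log (T : ℝ) := (le_max_left _ _).trans h1
  have hL8 : 8 * M * (K0 + 2) ≤ Real.log (T : ℝ) := (le_max_right _ _).trans h1
  have hTr : (0 : ℝ) < T := by exact_mod_cast hT1
  -- the main inequality
  have hmain : ∑ e ∈ ME A K0 T, κ ^ e.primeFactors.card *
      (2 ^ e.primeFactors.card / (e : ℝ)) * (AE z (wT A T) T e) ^ 2 ≤
      MS s T + M ^ kT K0 T * ((T : ℝ) * (T : ℝ) ^ ((1 : ℝ) / 4) +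
        2 * (T : ℝ) ^ 2 * (1 + kT K0 T) / (wT A T) * (1 + Real.log T)) := by
    have hterm : ∀ e ∈ ME A K0 T, κ ^ e.primeFactors.card *
        (2 ^ e.primeFactors.card / (e : ℝ)) * (AE z (wT A T) T e) ^ 2 ≤
        κ ^ e.primeFactors.card * (∑ t ∈ Pr T, FF z (wT A T) e t.1 t.2) +
        M ^ kT K0 T * (T + 2 * (T : ℝ) ^ 2 * (1 + kT K0 T) / (wT A T) * ((e : ℝ))⁻¹) := by
      intro e he
      have h3 := ae_le hz0 hz1 A K0 T e he
      have h4 : κ ^ e.primeFactors.card ≤ M ^ kT K0 T :=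
        (pow_le_pow_left₀ hκ (le_max_right _ _) _).trans (pow_le_pow_right₀ hM1 (me_dv he).2)
      have h5 : 0 ≤ (T : ℝ) + 2 * (T : ℝ) ^ 2 * (1 + kT K0 T) / (wT A T) * ((e : ℝ))⁻¹ := by
        positivity
      calc κ ^ e.primeFactors.card * (2 ^ e.primeFactors.card / (e : ℝ)) *
            (AE z (wT A T) T e) ^ 2
          = κ ^ e.primeFactors.card * (2 ^ e.primeFactors.card / (e : ℝ) *
            (AE z (wT A T) T e) ^ 2) := by ring
        _ ≤ κ ^ e.primeFactors.card * (∑ t ∈ Pr T, FF z (wT A T) e t.1 t.2 +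
            (T + 2 * (T : ℝ) ^ 2 * (1 + kT K0 T) / (wT A T) * ((e : ℝ))⁻¹)) :=
            mul_le_mul_of_nonneg_left h3 (by positivity)
        _ = κ ^ e.primeFactors.card * (∑ t ∈ Pr T, FF z (wT A T) e t.1 t.2) +
            κ ^ e.primeFactors.card *
            (T + 2 * (T : ℝ) ^ 2 * (1 + kT K0 T) / (wT A T) * ((e : ℝ))⁻¹) := by ring
        _ ≤ _ := by
            have := mul_le_mul_of_nonneg_right h4 h5
            linarith
    refine (Finset.sum_le_sum hterm).trans ?_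
    rw [Finset.sum_add_distrib, ← Finset.mul_sum]
    apply add_le_add
    · have h6 : ∑ e ∈ ME A K0 T, κ ^ e.primeFactors.card *
          ∑ t ∈ Pr T, FF z (wT A T) e t.1 t.2 =
          ∑ t ∈ Pr T, ∑ e ∈ ME A K0 T, κ ^ e.primeFactors.card *
            FF z (wT A T) e t.1 t.2 := by
        rw [Finset.sum_comm]
        apply Finset.sum_congr rfl
        intro e _
        rw [Finset.mul_sum]
      rw [h6]
      unfold MS
      apply Finset.sum_le_sum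
      intro t ht
      exact pair_le s hs A K0 T t.1 t.2 ht
    · apply mul_le_mul_of_nonneg_left _ (by positivity)
      rw [Finset.sum_add_distrib, Finset.sum_const, nsmul_eq_mul, ← Finset.mul_sum]
      apply add_le_add
      · rw [mul_comm]
        exact mul_le_mul_of_nonneg_left (card_ME A K0 T hT1) hTr.le
      · exact mul_le_mul_of_nonneg_left (inv_ME A K0 T hT1) (by positivity)
  refine hmain.trans ?_
  -- the error
  set L : ℝ := Real.log (T : ℝ) with hL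
  have hL0 : 0 < L := by linarith
  have hΛ : M ^ kT K0 T ≤ M * L ^ c := lam_le M hM1 K0 T hL1
  have hK : ((kT K0 T : ℕ) : ℝ) ≤ K0 * L + 1 := by
    unfold kT
    push_cast
    have h3 : 0 ≤ (K0 : ℝ) * Real.log L := mul_nonneg (Nat.cast_nonneg _) (Real.log_nonneg hL1)
    have h4 : (⌊(K0 : ℝ) * Real.log (Real.log T)⌋₊ : ℝ) ≤ (K0 : ℝ) * Real.log L :=
      Nat.floor_le h3
    have h5 : (K0 : ℝ) * Real.log L ≤ K0 * L :=
      mul_le_mul_of_nonneg_left (Real.log_le_self hL0.le) (Nat.cast_nonneg _)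
    linarith
  have hK2 : 1 + ((kT K0 T : ℕ) : ℝ) ≤ (K0 + 2) * L := by nlinarith
  have hw : L ^ (c + 7) ≤ (wT A T : ℝ) := by
    have h3 : L ^ A < (⌊L ^ A⌋₊ : ℝ) + 1 := Nat.lt_floor_add_one _
    have h4 : L ^ (c + 7) ≤ L ^ A := pow_le_pow_right₀ hL1 hA
    unfold wT
    push_cast
    linarith
  have hLc : 0 < L ^ c := by positivity
  have hA1 : M ^ kT K0 T * ((T : ℝ) * (T : ℝ) ^ ((1 : ℝ) / 4)) ≤ (T : ℝ) ^ 2 / (2 * L ^ 4) := by
    have h3 : (T : ℝ) ^ ((3 : ℝ) / 4) * (T : ℝ) ^ ((1 : ℝ) / 4) = T := by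
      rw [← Real.rpow_add hTr]
      norm_num
    have h5 : 2 * (M * L ^ c) * L ^ 4 ≤ (T : ℝ) ^ ((3 : ℝ) / 4) := by
      refine le_trans (le_of_eq ?_) h2
      rw [pow_add]
      ring
    have h4 : (M * L ^ c) * ((T : ℝ) * (T : ℝ) ^ ((1 : ℝ) / 4)) ≤ (T : ℝ) ^ 2 / (2 * L ^ 4) := by
      rw [le_div_iff₀ (by positivity)]
      have h6 : 0 ≤ (T : ℝ) * (T : ℝ) ^ ((1 : ℝ) / 4) := by positivity
      calc (M * L ^ c) * ((T : ℝ) * (T : ℝ) ^ ((1 : ℝ) / 4)) * (2 * L ^ 4)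
          = (2 * (M * L ^ c) * L ^ 4) * ((T : ℝ) * (T : ℝ) ^ ((1 : ℝ) / 4)) := by ring
        _ ≤ (T : ℝ) ^ ((3 : ℝ) / 4) * ((T : ℝ) * (T : ℝ) ^ ((1 : ℝ) / 4)) :=
          mul_le_mul_of_nonneg_right h5 h6
        _ = ((T : ℝ) ^ ((3 : ℝ) / 4) * (T : ℝ) ^ ((1 : ℝ) / 4)) * T := by ring
        _ = (T : ℝ) ^ 2 := by rw [h3]; ring
    exact (mul_le_mul_of_nonneg_right hΛ (by positivity)).trans h4
  have hA2 : M ^ kT K0 T * (2 * (T : ℝ) ^ 2 * (1 + kT K0 T) / (wT A T) * (1 + L)) ≤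
      (T : ℝ) ^ 2 / (2 * L ^ 4) := by
    have h3 : 2 * (T : ℝ) ^ 2 * (1 + kT K0 T) / (wT A T) * (1 + L) ≤
        2 * (T : ℝ) ^ 2 * ((K0 + 2) * L) / L ^ (c + 7) * (2 * L) := by
      apply mul_le_mul _ (by linarith) (by linarith) (by positivity)
      apply div_le_div₀ (by positivity) _ (by positivity) hw
      exact mul_le_mul_of_nonneg_left hK2 (by positivity)
    have h4 : M * L ^ c * (2 * (T : ℝ) ^ 2 * ((K0 + 2) * L) / L ^ (c + 7) * (2 * L)) ≤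
        (T : ℝ) ^ 2 / (2 * L ^ 4) := by
      have h5 : M * L ^ c * (2 * (T : ℝ) ^ 2 * ((K0 + 2) * L) / L ^ (c + 7) * (2 * L)) =
          (8 * M * (K0 + 2)) * (T : ℝ) ^ 2 / (2 * L ^ 5) := by
        rw [pow_add]
        field_simp
        ring
      rw [h5, div_le_div_iff₀ (by positivity) (by positivity)]
      have h6 : (8 * M * (K0 + 2)) * (T : ℝ) ^ 2 * (2 * L ^ 4) ≤
          L * (T : ℝ) ^ 2 * (2 * L ^ 4) := by
        apply mul_le_mul_of_nonneg_right _ (by positivity)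
        exact mul_le_mul_of_nonneg_right hL8 (by positivity)
      refine h6.trans (le_of_eq ?_)
      ring
    exact (mul_le_mul hΛ h3 (by positivity) (by positivity)).trans h4
  have hsum : M ^ kT K0 T * ((T : ℝ) * (T : ℝ) ^ ((1 : ℝ) / 4) +
        2 * (T : ℝ) ^ 2 * (1 + kT K0 T) / (wT A T) * (1 + L)) ≤ (T : ℝ) ^ 2 / L ^ 4 := by
    rw [mul_add]
    have h3 : (T : ℝ) ^ 2 / (2 * L ^ 4) + (T : ℝ) ^ 2 / (2 * L ^ 4) = (T : ℝ) ^ 2 / L ^ 4 := by
      field_simp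
      ring
    linarith
  linarith

end Pool.Agent.W839.IM
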