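import Pool.Agent.W307.IM.Stm

/-!
# IM-EXPM, first part: residues with prescribed symbols and Cauchy's inequality
-/

set_option autoImplicit false

namespace Pool.Agent.W839.IM

open Finset

/-- the condition -/
def chi (e a : ℕ) : Prop := ∀ p : ℕ, p.Prime → p ∣ e → jacobiSym (3 * (a : ℤ)) p = 1

lemma jac_mod (p e a : ℕ) (hpe : p ∣ e) :
    jacobiSym (3 * (a : ℤ)) p = jacobiSym (3 * ((a % e : ℕ) : ℤ)) p := by
  apply jacobiSym.mod_left'
  have h1 : a % e ≡ a [MOD p] := (Nat.mod_modEq a e).of_dvd hpe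
  have h2 : ((a % e : ℕ) : ℤ) ≡ (a : ℤ) [ZMOD p] := Int.natCast_modEq_iff.2 h1
  exact (h2.symm.mul_left 3)

lemma chi_mod (e a : ℕ) : chi e a ↔ chi e (a % e) := by
  unfold chi
  constructor
  · intro h p hp hpe
    rw [← jac_mod p e a hpe]
    exact h p hp hpe
  · intro h p hp hpe
    rw [jac_mod p e a hpe]
    exact h p hp hpe

lemma chi_dvd {d e a : ℕ} (h : d ∣ e) (hc : chi e a) : chi d a :=
  fun p hp hpd => hc p hp (hpd.trans h)

open Classical in
/-- the residues -/
noncomputable def RR (e : ℕ) : Finset ℕ := (range e).filter (chi e)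

lemma card_prime (p : ℕ) (hp : p.Prime) (h2 : p ≠ 2) : (RR p).card * 2 ≤ p := by
  classical
  have : Fact p.Prime := ⟨hp⟩
  have : NeZero p := ⟨hp.ne_zero⟩
  have hsum : ∑ x : ZMod p, quadraticChar (ZMod p) (3 * x) = 0 := by
    have h : ∑ x : ZMod p, quadraticChar (ZMod p) (3 * x) =
        quadraticChar (ZMod p) 3 * ∑ x : ZMod p, quadraticChar (ZMod p) x := by
      rw [Finset.mul_sum]
      exact Finset.sum_congr rfl fun x _ => map_mul _ _ _
    rw [h, quadraticChar_sum_zero, mul_zero]
    rw [ZMod.ringChar_zmod_n]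
    exact h2
  set P := (univ : Finset (ZMod p)).filter (fun x => quadraticChar (ZMod p) (3 * x) = 1) with hP
  set N := (univ : Finset (ZMod p)).filter (fun x => quadraticChar (ZMod p) (3 * x) = -1) with hN
  have hPN : (P.card : ℤ) = N.card := by
    have h : ∀ x : ZMod p, quadraticChar (ZMod p) (3 * x) =
        (if quadraticChar (ZMod p) (3 * x) = 1 then 1 else 0) -
        (if quadraticChar (ZMod p) (3 * x) = -1 then 1 else 0) := by
      intro x
      by_cases hx : (3 * x) = 0
      · rw [hx, quadraticChar_zero]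
        norm_num
      · rcases quadraticChar_dichotomy hx with h | h <;> rw [h] <;> norm_num
    rw [Finset.sum_congr rfl (fun x _ => h x), Finset.sum_sub_distrib, Finset.sum_boole,
      Finset.sum_boole] at hsum
    have : (P.card : ℤ) - N.card = 0 := by
      rw [hP, hN]
      exact_mod_cast hsum
    linarith
  have hle : P.card + N.card ≤ p := by
    have hd : Disjoint P N := by
      rw [Finset.disjoint_left]
      intro x hx hx'
      rw [hP, mem_filter] at hx
      rw [hN, mem_filter] at hx'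
      rw [hx.2] at hx'
      exact absurd hx'.2 (by norm_num)
    rw [← card_union_of_disjoint hd]
    calc (P ∪ N).card ≤ (univ : Finset (ZMod p)).card := card_le_univ _
      _ = p := by rw [card_univ, ZMod.card]
  have hR : (RR p).card ≤ P.card := by
    apply Finset.card_le_card_of_injOn (fun r : ℕ => (r : ZMod p))
    · intro r hr
      rw [mem_coe, RR, mem_filter] at hr
      rw [mem_coe, hP, mem_filter]
      refine ⟨mem_univ _, ?_⟩
      have h := hr.2 p hp dvd_rfl
      rw [← jacobiSym.legendreSym.to_jacobiSym, legendreSym] at h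
      push_cast at h
      exact h
    · intro r hr r' hr' h
      rw [mem_coe, RR, mem_filter, mem_range] at hr hr'
      have h1 := (ZMod.natCast_eq_natCast_iff' r r' p).1 h
      rwa [Nat.mod_eq_of_lt hr.1, Nat.mod_eq_of_lt hr'.1] at h1
  have h3 : P.card = N.card := by exact_mod_cast hPN
  omega

lemma card_mul (m n : ℕ) (hm : 0 < m) (hn : 0 < n) (h : m.Coprime n) :
    (RR (m * n)).card ≤ (RR m).card * (RR n).card := by
  classical
  rw [← card_product]
  apply Finset.card_le_card_of_injOn (fun r : ℕ => (r % m, r % n))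
  · intro r hr
    rw [mem_coe, RR, mem_filter] at hr
    rw [mem_coe, mem_product, RR, RR, mem_filter, mem_filter, mem_range, mem_range]
    exact ⟨⟨Nat.mod_lt _ hm, (chi_mod m r).1 (chi_dvd (Dvd.intro _ rfl) hr.2)⟩,
      ⟨Nat.mod_lt _ hn, (chi_mod n r).1 (chi_dvd (Dvd.intro_left _ rfl) hr.2)⟩⟩
  · intro r hr r' hr' h1
    rw [mem_coe, RR, mem_filter, mem_range] at hr hr'
    simp only [Prod.mk.injEq] at h1
    have h2 : r ≡ r' [MOD (m * n)] := (Nat.modEq_and_modEq_iff_modEq_mul h).1 ⟨h1.1, h1.2⟩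
    have h3 : r % (m * n) = r' % (m * n) := h2
    rwa [Nat.mod_eq_of_lt hr.1, Nat.mod_eq_of_lt hr'.1] at h3

lemma card_prod (s : Finset ℕ) (hs : ∀ p ∈ s, p.Prime ∧ p ≠ 2) :
    (RR (∏ p ∈ s, p)).card * 2 ^ s.card ≤ ∏ p ∈ s, p := by
  classical
  induction s using Finset.induction_on with
  | empty =>
    simp only [prod_empty, card_empty, pow_zero, mul_one]
    unfold RR
    exact (card_filter_le _ _).trans (by simp)
  | insert p s hp ih =>
    rw [prod_insert hp, card_insert_of_notMem hp]
    have ih' := ih (fun q hq => hs q (mem_insert_of_mem hq))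
    have hpp := hs p (mem_insert_self _ _)
    have hcop : p.Coprime (∏ q ∈ s, q) := by
      rw [Nat.coprime_prod_right_iff]
      intro q hq
      rw [Nat.coprime_primes hpp.1 (hs q (mem_insert_of_mem hq)).1]
      rintro rfl
      exact hp hq
    have hpos : 0 < ∏ q ∈ s, q := prod_pos fun q hq => (hs q (mem_insert_of_mem hq)).1.pos
    calc (RR (p * ∏ q ∈ s, q)).card * 2 ^ (s.card + 1)
        ≤ ((RR p).card * (RR (∏ q ∈ s, q)).card) * 2 ^ (s.card + 1) :=
          Nat.mul_le_mul_right _ (card_mul _ _ hpp.1.pos hpos hcop)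
      _ = ((RR p).card * 2) * ((RR (∏ q ∈ s, q)).card * 2 ^ s.card) := by ring
      _ ≤ p * ∏ q ∈ s, q := Nat.mul_le_mul (card_prime p hpp.1 hpp.2) ih'

lemma card_RR (e : ℕ) (he : Squarefree e) (h2 : ∀ p, p.Prime → p ∣ e → p ≠ 2) :
    (RR e).card * 2 ^ e.primeFactors.card ≤ e := by
  have h := card_prod e.primeFactors (fun p hp => ⟨Nat.prime_of_mem_primeFactors hp,
    h2 p (Nat.prime_of_mem_primeFactors hp) (Nat.dvd_of_mem_primeFactors hp)⟩)
  rwa [Nat.prod_primeFactors_of_squarefree he] at h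

open Classical in
/-- Cauchy's inequality -/
lemma cauchy (c : ℕ → ℝ) (X : Finset ℕ) (e : ℕ) (he : Squarefree e)
    (h2 : ∀ p, p.Prime → p ∣ e → p ≠ 2) :
    2 ^ e.primeFactors.card * (∑ a ∈ X.filter (chi e), c a) ^ 2 ≤
      e * ∑ a ∈ X, ∑ b ∈ X, if a ≡ b [MOD e] ∧ chi e a then c a * c b else 0 := by
  have he0 : 0 < e := Nat.pos_of_ne_zero he.ne_zero
  set G : ℕ → ℝ := fun r => ∑ a ∈ X.filter (fun a => a % e = r), c a with hG
  have hmaps : ∀ a ∈ X.filter (chi e), a % e ∈ RR e := by
    intro a ha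
    rw [mem_filter] at ha
    rw [RR, mem_filter, mem_range]
    exact ⟨Nat.mod_lt _ he0, (chi_mod e a).1 ha.2⟩
  have hfib : ∀ r ∈ RR e, (X.filter (chi e)).filter (fun a => a % e = r) =
      X.filter (fun a => a % e = r) := by
    intro r hr
    rw [RR, mem_filter] at hr
    ext a
    simp only [mem_filter]
    constructor
    · rintro ⟨⟨h1, -⟩, h3⟩
      exact ⟨h1, h3⟩
    · rintro ⟨h1, h3⟩
      refine ⟨⟨h1, ?_⟩, h3⟩
      rw [chi_mod, h3]
      exact hr.2
  have hS : ∑ a ∈ X.filter (chi e), c a = ∑ r ∈ RR e, G r := by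
    rw [← Finset.sum_fiberwise_of_maps_to hmaps]
    apply Finset.sum_congr rfl
    intro r hr
    rw [hfib r hr]
  have hD : ∑ a ∈ X, ∑ b ∈ X, (if a ≡ b [MOD e] ∧ chi e a then c a * c b else 0) =
      ∑ r ∈ RR e, G r ^ 2 := by
    have h1 : ∀ a ∈ X, ∑ b ∈ X, (if a ≡ b [MOD e] ∧ chi e a then c a * c b else 0) =
        if chi e a then c a * G (a % e) else 0 := by
      intro a _
      by_cases ha : chi e a
      · rw [if_pos ha, hG]
        simp only [ha, and_true]
        rw [Finset.mul_sum, Finset.sum_filter]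
        apply Finset.sum_congr rfl
        intro b _
        have : (a ≡ b [MOD e]) ↔ b % e = a % e := by
          unfold Nat.ModEq
          exact eq_comm
        simp only [this]
      · rw [if_neg ha]
        apply Finset.sum_eq_zero
        intro b _
        rw [if_neg]
        exact fun h => ha h.2
    rw [Finset.sum_congr rfl h1, ← Finset.sum_filter, ← Finset.sum_fiberwise_of_maps_to hmaps]
    apply Finset.sum_congr rfl
    intro r hr
    rw [hfib r hr, pow_two]
    have h2 : ∀ a ∈ X.filter (fun a => a % e = r), c a * G (a % e) = c a * G r := by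
      intro a ha
      rw [(mem_filter.1 ha).2]
    rw [Finset.sum_congr rfl h2, ← Finset.sum_mul]
  rw [hS, hD]
  have hc := sq_sum_le_card_mul_sum_sq (s := RR e) (f := G)
  have hcard : ((RR e).card : ℝ) * 2 ^ e.primeFactors.card ≤ e := by
    exact_mod_cast card_RR e he h2
  have hnn : 0 ≤ ∑ r ∈ RR e, G r ^ 2 := Finset.sum_nonneg fun r _ => sq_nonneg _
  calc 2 ^ e.primeFactors.card * (∑ r ∈ RR e, G r) ^ 2
      ≤ 2 ^ e.primeFactors.card * ((RR e).card * ∑ r ∈ RR e, G r ^ 2) :=
        mul_le_mul_of_nonneg_left hc (by positivity)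
    _ = (((RR e).card : ℝ) * 2 ^ e.primeFactors.card) * ∑ r ∈ RR e, G r ^ 2 := by ring
    _ ≤ e * ∑ r ∈ RR e, G r ^ 2 := mul_le_mul_of_nonneg_right hcard hnn

end Pool.Agent.W839.IM
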