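import Pool.Agent.W839.IM.Exp

/-!
# IM-EXPM, third part: counting
-/

set_option autoImplicit false

namespace Pool.Agent.W839.IM

open Finset Pool.Agent.W262.RK Pool.Agent.W307.IM

lemma card_res (T m a : ℕ) (_hm : 0 < m) :
    ((Icc 1 T).filter (fun b => a ≡ b [MOD m])).card ≤ T / m + 1 := by
  have h : ((Icc 1 T).filter (fun b => a ≡ b [MOD m])).card ≤ (range (T / m + 1)).card := by
    apply Finset.card_le_card_of_injOn (fun b => b / m)
    · intro b hb
      rw [mem_coe, mem_filter, mem_Icc] at hb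
      rw [mem_coe, mem_range]
      exact Nat.lt_succ_of_le (Nat.div_le_div_right hb.1.2)
    · intro b hb b' hb' h1
      rw [mem_coe, mem_filter] at hb hb'
      have h2 : b % m = b' % m := (hb.2.symm.trans hb'.2)
      simp only at h1
      rw [← Nat.div_add_mod b m, ← Nat.div_add_mod b' m, h1, h2]
  simpa using h

/-- the pairs for a prime -/
def NP (T p m : ℕ) : Finset (ℕ × ℕ) := (Icc 1 T ×ˢ Icc 1 T).filter
  (fun t => t.1 ≠ t.2 ∧ p ∣ t.1 ∧ t.1 ≡ t.2 [MOD m])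

lemma card_NP (T p m : ℕ) (hp : 0 < p) (hm : 0 < m) :
    ((NP T p m).card : ℝ) ≤ 2 * (T : ℝ) ^ 2 / (p * m) := by
  classical
  rcases lt_or_ge T m with h | h
  · have h0 : NP T p m = ∅ := by
      rw [Finset.eq_empty_iff_forall_notMem]
      intro t ht
      unfold NP at ht
      rw [mem_filter, mem_product, mem_Icc, mem_Icc] at ht
      obtain ⟨⟨⟨h1, h2⟩, h3, h4⟩, h5, -, h6⟩ := ht
      apply h5
      have h7 : t.1 % m = t.2 % m := h6
      rwa [Nat.mod_eq_of_lt (by omega), Nat.mod_eq_of_lt (by omega)] at h7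
    rw [h0]
    simp only [card_empty, Nat.cast_zero]
    positivity
  · have h1 : (NP T p m).card ≤ (T / p) * (T / m + 1) := by
      have h2 : NP T p m ⊆ ((Icc 1 T).filter (fun a => p ∣ a)).biUnion
          (fun a => ((Icc 1 T).filter (fun b => a ≡ b [MOD m])).image (fun b => (a, b))) := by
        intro t ht
        unfold NP at ht
        rw [mem_filter, mem_product] at ht
        rw [mem_biUnion]
        refine ⟨t.1, mem_filter.2 ⟨ht.1.1, ht.2.2.1⟩, mem_image.2 ⟨t.2, ?_, rfl⟩⟩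
        exact mem_filter.2 ⟨ht.1.2, ht.2.2.2⟩
      calc (NP T p m).card ≤ _ := card_le_card h2
        _ ≤ ((Icc 1 T).filter (fun a => p ∣ a)).card * (T / m + 1) :=
          Finset.card_biUnion_le_card_mul _ _ _ fun a _ => card_image_le.trans (card_res T m a hm)
        _ = (T / p) * (T / m + 1) := by
          congr 1
          rw [← Nat.Ioc_filter_dvd_card_eq_div T p]
          rfl
    have h3 : ((T / p : ℕ) : ℝ) ≤ (T : ℝ) / p := Nat.cast_div_le
    have h4 : ((T / m : ℕ) : ℝ) ≤ (T : ℝ) / m := Nat.cast_div_le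
    have hp' : (0 : ℝ) < p := by exact_mod_cast hp
    have hm' : (0 : ℝ) < m := by exact_mod_cast hm
    have h5 : (1 : ℝ) ≤ (T : ℝ) / m := by
      rw [le_div_iff₀ hm', one_mul]
      exact_mod_cast h
    calc ((NP T p m).card : ℝ) ≤ ((T / p : ℕ) : ℝ) * (((T / m : ℕ) : ℝ) + 1) := by exact_mod_cast h1
      _ ≤ (T : ℝ) / p * ((T : ℝ) / m + (T : ℝ) / m) := by
        apply mul_le_mul h3 (add_le_add h4 h5) (by positivity) (by positivity)
      _ = 2 * (T : ℝ) ^ 2 / (p * m) := by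
        field_simp
        ring

open Classical in
/-- the pairs that are not coprime -/
noncomputable def NC (T w e : ℕ) : Finset (ℕ × ℕ) := (Icc 1 T ×ˢ Icc 1 T).filter
  (fun t => t.1 ≠ t.2 ∧ ¬ t.1.Coprime t.2 ∧ (∀ p : ℕ, p.Prime → p ∣ t.1 → w < p) ∧
    t.1 ≡ t.2 [MOD e])

lemma card_NC (T w e : ℕ) (hw : 0 < w) (he : 0 < e) :
    ((NC T w e).card : ℝ) ≤ 2 * (T : ℝ) ^ 2 * (1 + e.primeFactors.card) / (e * w) := by
  classical
  have he' : (0 : ℝ) < e := by exact_mod_cast he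
  have hw' : (0 : ℝ) < w := by exact_mod_cast hw
  set Q := (Ioc w T).filter Nat.Prime with hQ
  set m : ℕ → ℕ := fun p => if p ∣ e then e else p * e with hm
  have hsub : NC T w e ⊆ Q.biUnion (fun p => NP T p (m p)) := by
    intro t ht
    unfold NC at ht
    rw [mem_filter, mem_product, mem_Icc, mem_Icc] at ht
    obtain ⟨⟨⟨h1, h2⟩, h3, h4⟩, h5, h6, h7, h8⟩ := ht
    obtain ⟨p, hp, hp1, hp2⟩ := Nat.Prime.not_coprime_iff_dvd.1 h6
    have hpw := h7 p hp hp1
    have hpT : p ≤ T := (Nat.le_of_dvd h1 hp1).trans h2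
    rw [mem_biUnion]
    refine ⟨p, ?_, ?_⟩
    · rw [hQ, mem_filter, mem_Ioc]
      exact ⟨⟨hpw, hpT⟩, hp⟩
    · unfold NP
      rw [mem_filter, mem_product, mem_Icc, mem_Icc]
      refine ⟨⟨⟨h1, h2⟩, h3, h4⟩, h5, hp1, ?_⟩
      rw [hm]
      simp only
      split_ifs with hpe
      · exact h8
      · have hcop : p.Coprime e := (Nat.Prime.coprime_iff_not_dvd hp).2 hpe
        rw [← Nat.modEq_and_modEq_iff_modEq_mul hcop]
        refine ⟨?_, h8⟩
        exact ((Nat.modEq_zero_iff_dvd.2 hp1).trans (Nat.modEq_zero_iff_dvd.2 hp2).symm)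
  have hbd : ∀ p ∈ Q, ((NP T p (m p)).card : ℝ) ≤ 2 * (T : ℝ) ^ 2 / e * ((p : ℝ) ^ 2)⁻¹ +
      (if p ∣ e then 2 * (T : ℝ) ^ 2 / (e * w) else 0) := by
    intro p hp
    rw [hQ, mem_filter, mem_Ioc] at hp
    have hp0 : 0 < p := hp.2.pos
    have hp' : (0 : ℝ) < p := by exact_mod_cast hp0
    have hwp : (w : ℝ) ≤ p := by exact_mod_cast hp.1.1.le
    have hmp : 0 < m p := by
      rw [hm]
      simp only
      split_ifs
      · exact he
      · exact Nat.mul_pos hp0 he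
    refine (card_NP T p (m p) hp0 hmp).trans ?_
    rw [hm]
    simp only
    split_ifs with hpe
    · have h1 : 2 * (T : ℝ) ^ 2 / (p * e) ≤ 2 * (T : ℝ) ^ 2 / (e * w) := by
        apply div_le_div_of_nonneg_left (by positivity) (by positivity)
        rw [mul_comm (p : ℝ)]
        exact mul_le_mul_of_nonneg_left hwp he'.le
      have h2 : 0 ≤ 2 * (T : ℝ) ^ 2 / e * ((p : ℝ) ^ 2)⁻¹ := by positivity
      linarith
    · rw [add_zero]
      apply le_of_eq
      push_cast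
      field_simp
  have hsq : ∑ p ∈ Q, ((p : ℝ) ^ 2)⁻¹ ≤ (w : ℝ)⁻¹ := by
    calc ∑ p ∈ Q, ((p : ℝ) ^ 2)⁻¹ ≤ ∑ p ∈ Ioc w T, ((p : ℝ) ^ 2)⁻¹ :=
          Finset.sum_le_sum_of_subset_of_nonneg (filter_subset _ _) fun i _ _ => by positivity
      _ ≤ (w : ℝ)⁻¹ := by
          rcases le_or_gt w T with h | h
          · refine (sum_Ioc_inv_sq_le_sub (α := ℝ) hw.ne' h).trans ?_
            have : 0 ≤ (T : ℝ)⁻¹ := by positivity
            linarith
          · rw [Finset.Ioc_eq_empty (by omega), Finset.sum_empty]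
            positivity
  have hdv : ∑ p ∈ Q, (if p ∣ e then 2 * (T : ℝ) ^ 2 / (e * w) else 0) ≤
      e.primeFactors.card * (2 * (T : ℝ) ^ 2 / (e * w)) := by
    rw [← Finset.sum_filter, Finset.sum_const, nsmul_eq_mul]
    apply mul_le_mul_of_nonneg_right _ (by positivity)
    have : (Q.filter (fun p => p ∣ e)).card ≤ e.primeFactors.card := by
      apply card_le_card
      intro p hp
      rw [mem_filter, hQ, mem_filter] at hp
      rw [Nat.mem_primeFactors]
      exact ⟨hp.1.2, hp.2, he.ne'⟩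
    exact_mod_cast this
  calc ((NC T w e).card : ℝ) ≤ ((Q.biUnion (fun p => NP T p (m p))).card : ℝ) := by
        exact_mod_cast card_le_card hsub
    _ ≤ ∑ p ∈ Q, ((NP T p (m p)).card : ℝ) := by exact_mod_cast card_biUnion_le
    _ ≤ ∑ p ∈ Q, (2 * (T : ℝ) ^ 2 / e * ((p : ℝ) ^ 2)⁻¹ +
      (if p ∣ e then 2 * (T : ℝ) ^ 2 / (e * w) else 0)) := Finset.sum_le_sum hbd
    _ = 2 * (T : ℝ) ^ 2 / e * ∑ p ∈ Q, ((p : ℝ) ^ 2)⁻¹ +
        ∑ p ∈ Q, (if p ∣ e then 2 * (T : ℝ) ^ 2 / (e * w) else 0) := by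
      rw [Finset.sum_add_distrib, ← Finset.mul_sum]
    _ ≤ 2 * (T : ℝ) ^ 2 / e * (w : ℝ)⁻¹ + e.primeFactors.card * (2 * (T : ℝ) ^ 2 / (e * w)) :=
      add_le_add (mul_le_mul_of_nonneg_left hsq (by positivity)) hdv
    _ = 2 * (T : ℝ) ^ 2 * (1 + e.primeFactors.card) / (e * w) := by
      field_simp

/-- one modulus -/
lemma mod_le {z : ℝ} (hz : 0 ≤ z) (hz1 : z ≤ 1) (T w e : ℕ) :
    ∑ a ∈ range (T + 1), ∑ b ∈ range (T + 1), FF z w e a b ≤
      ∑ t ∈ Pr T, FF z w e t.1 t.2 + T + (NC T w e).card := by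
  classical
  set f : ℕ × ℕ → ℝ := fun t => FF z w e t.1 t.2 with hf
  set Dg := (Icc 1 T).image (fun a => (a, a)) with hDg
  have hnn : ∀ t, 0 ≤ f t := fun t => FF_nonneg hz _ _ _ _
  have hle : ∀ t, f t ≤ 1 := fun t => FF_le_one hz hz1 _ _ _ _
  have h1 : ∑ a ∈ range (T + 1), ∑ b ∈ range (T + 1), FF z w e a b =
      ∑ t ∈ range (T + 1) ×ˢ range (T + 1), f t := by
    rw [Finset.sum_product]
  have hsub : (range (T + 1) ×ˢ range (T + 1)).filter (fun t => f t ≠ 0) ⊆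
      (Pr T ∪ Dg) ∪ NC T w e := by
    intro t ht
    rw [mem_filter, mem_product, mem_range, mem_range] at ht
    obtain ⟨⟨ha, hb⟩, hft⟩ := ht
    rw [hf] at hft
    simp only at hft
    unfold FF at hft
    have hc : t.1 ≡ t.2 [MOD e] ∧ chi e t.1 := by
      by_contra hc
      rw [if_neg hc] at hft
      exact hft rfl
    rw [if_pos hc] at hft
    have h3 := left_ne_zero_of_mul hft
    have h4 := right_ne_zero_of_mul hft
    unfold cz at h3 h4
    have h5 : 1 ≤ t.1 ∧ ∀ p : ℕ, p.Prime → p ∣ t.1 → w < p := by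
      by_contra h
      rw [if_neg h] at h3
      exact h3 rfl
    have h6 : 1 ≤ t.2 ∧ ∀ p : ℕ, p.Prime → p ∣ t.2 → w < p := by
      by_contra h
      rw [if_neg h] at h4
      exact h4 rfl
    by_cases heq : t.1 = t.2
    · rw [mem_union, mem_union]
      left; right
      rw [hDg, mem_image]
      refine ⟨t.1, mem_Icc.2 ⟨h5.1, by omega⟩, ?_⟩
      exact Prod.ext rfl heq
    · by_cases hcop : t.1.Coprime t.2
      · rw [mem_union, mem_union]
        left; left
        unfold Pr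
        rw [mem_filter, mem_product, mem_Icc, mem_Icc]
        exact ⟨⟨⟨h5.1, by omega⟩, ⟨h6.1, by omega⟩⟩, heq, hcop⟩
      · rw [mem_union]
        right
        unfold NC
        rw [mem_filter, mem_product, mem_Icc, mem_Icc]
        exact ⟨⟨⟨h5.1, by omega⟩, ⟨h6.1, by omega⟩⟩, heq, hcop, h5.2, hc.1⟩
  have hun : ∀ A B : Finset (ℕ × ℕ), ∑ t ∈ A ∪ B, f t ≤ ∑ t ∈ A, f t + ∑ t ∈ B, f t := by
    intro A B
    rw [← Finset.sum_union_inter]
    have : 0 ≤ ∑ t ∈ A ∩ B, f t := Finset.sum_nonneg fun t _ => hnn t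
    linarith
  have hcard : ∀ A : Finset (ℕ × ℕ), ∑ t ∈ A, f t ≤ A.card := by
    intro A
    calc ∑ t ∈ A, f t ≤ ∑ _t ∈ A, (1 : ℝ) := Finset.sum_le_sum fun t _ => hle t
      _ = A.card := by simp
  have hDc : (Dg.card : ℝ) ≤ T := by
    have : Dg.card ≤ T := by
      calc Dg.card ≤ (Icc 1 T).card := card_image_le
        _ = T := by simp
    exact_mod_cast this
  rw [h1, ← Finset.sum_filter_ne_zero]
  calc ∑ t ∈ (range (T + 1) ×ˢ range (T + 1)).filter (fun t => f t ≠ 0), f t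
      ≤ ∑ t ∈ (Pr T ∪ Dg) ∪ NC T w e, f t :=
        Finset.sum_le_sum_of_subset_of_nonneg hsub fun t _ _ => hnn t
    _ ≤ ∑ t ∈ Pr T ∪ Dg, f t + ∑ t ∈ NC T w e, f t := hun _ _
    _ ≤ (∑ t ∈ Pr T, f t + ∑ t ∈ Dg, f t) + ∑ t ∈ NC T w e, f t := by
      have := hun (Pr T) Dg
      linarith
    _ ≤ ∑ t ∈ Pr T, f t + T + (NC T w e).card := by
      have h7 := hcard Dg
      have h8 := hcard (NC T w e)
      linarith

end Pool.Agent.W839.IM
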