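import Pool.Agent.W839.IM.Cau
import Pool.Agent.W262.RK.Bas

/-!
# IM-EXPM, second part: one pair
-/

set_option autoImplicit false

namespace Pool.Agent.W839.IM

open Finset Pool.Agent.W262.RK Pool.Agent.W307.IM

lemma me_dv {A K0 T e : ℕ} (he : e ∈ ME A K0 T) :
    e ∈ (PP (wT A T) (yT K0 T)).divisors ∧ e.primeFactors.card ≤ kT K0 T := by
  classical
  unfold ME at he
  rw [mem_filter] at he
  exact he

lemma me_sqf {A K0 T e : ℕ} (he : e ∈ ME A K0 T) : Squarefree e := dv_squarefree (me_dv he).1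

lemma me_prime {A K0 T e p : ℕ} (he : e ∈ ME A K0 T) (hp : p.Prime) (h : p ∣ e) :
    wT A T < p ∧ p ≤ yT K0 T := dv_prime (me_dv he).1 hp h

lemma five_le_wT (A T : ℕ) : 5 ≤ wT A T := by
  unfold wT
  omega

open Classical in
/-- the weight of a pair -/
noncomputable def FF (z : ℝ) (w e a b : ℕ) : ℝ :=
  if a ≡ b [MOD e] ∧ chi e a then cz z w a * cz z w b else 0

lemma cz_nonneg {z : ℝ} (hz : 0 ≤ z) (w l : ℕ) : 0 ≤ cz z w l := by
  unfold cz
  split_ifs
  · positivity
  · exact le_rfl

lemma cz_le_one {z : ℝ} (hz : 0 ≤ z) (hz1 : z ≤ 1) (w l : ℕ) : cz z w l ≤ 1 := by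
  unfold cz
  split_ifs
  · exact pow_le_one₀ hz hz1
  · exact zero_le_one

lemma FF_nonneg {z : ℝ} (hz : 0 ≤ z) (w e a b : ℕ) : 0 ≤ FF z w e a b := by
  unfold FF
  split_ifs
  · exact mul_nonneg (cz_nonneg hz _ _) (cz_nonneg hz _ _)
  · exact le_rfl

lemma FF_le_one {z : ℝ} (hz : 0 ≤ z) (hz1 : z ≤ 1) (w e a b : ℕ) : FF z w e a b ≤ 1 := by
  unfold FF
  split_ifs
  · exact mul_le_one₀ (cz_le_one hz hz1 _ _) (cz_nonneg hz _ _) (cz_le_one hz hz1 _ _)
  · exact zero_le_one

/-- one pair -/
lemma pair_le (s : ℝ) (hs : 0 < s) (A K0 T a b : ℕ) (hab : (a, b) ∈ Pr T) :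
    ∑ e ∈ ME A K0 T, ((2 : ℝ) ^ s - 1) ^ e.primeFactors.card *
      FF ((2 : ℝ) ^ (-s)) (wT A T) e a b ≤
      (2 : ℝ) ^ (s * (((S2 a b).card : ℝ) - (T2 a b).card)) := by
  classical
  have hκ : 0 ≤ (2 : ℝ) ^ s - 1 := by
    have := Real.one_le_rpow (x := 2) (z := s) (by norm_num) hs.le
    linarith
  set κ : ℝ := (2 : ℝ) ^ s - 1 with hκd
  set z : ℝ := (2 : ℝ) ^ (-s) with hz
  have hz0 : 0 < z := by positivity
  unfold Pr at hab
  rw [mem_filter, mem_product, mem_Icc, mem_Icc] at hab
  obtain ⟨⟨⟨ha1, haT⟩, ⟨hb1, hbT⟩⟩, hne, hcop⟩ := hab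
  simp only at ha1 haT hb1 hbT hne hcop
  by_cases hra : ∀ p : ℕ, p.Prime → p ∣ a → wT A T < p
  swap
  · have h0 : cz z (wT A T) a = 0 := by
      unfold cz
      rw [if_neg]
      exact fun h => hra h.2
    rw [Finset.sum_eq_zero]
    · positivity
    · intro e _
      unfold FF
      rw [h0, zero_mul, ite_self, mul_zero]
  by_cases hrb : ∀ p : ℕ, p.Prime → p ∣ b → wT A T < p
  swap
  · have h0 : cz z (wT A T) b = 0 := by
      unfold cz
      rw [if_neg]
      exact fun h => hrb h.2
    rw [Finset.sum_eq_zero]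
    · positivity
    · intro e _
      unfold FF
      rw [h0, mul_zero, ite_self, mul_zero]
  have hca : cz z (wT A T) a = z ^ a.primeFactors.card := by
    unfold cz
    rw [if_pos ⟨ha1, hra⟩]
  have hcb : cz z (wT A T) b = z ^ b.primeFactors.card := by
    unfold cz
    rw [if_pos ⟨hb1, hrb⟩]
  -- T2
  have hT2 : (T2 a b).card = a.primeFactors.card + b.primeFactors.card := by
    have h1 : ((a : ℤ) * (b : ℤ)).natAbs = a * b := by
      rw [← Nat.cast_mul, Int.natAbs_natCast]
    unfold T2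
    rw [h1, Nat.primeFactors_mul (by omega) (by omega), ← card_union_of_disjoint
      (Nat.Coprime.disjoint_primeFactors hcop)]
    congr 1
    rw [Finset.filter_eq_self]
    intro p hp
    have h5 := five_le_wT A T
    rw [mem_union] at hp
    rcases hp with hp | hp
    · have := hra p (Nat.prime_of_mem_primeFactors hp) (Nat.dvd_of_mem_primeFactors hp)
      omega
    · have := hrb p (Nat.prime_of_mem_primeFactors hp) (Nat.dvd_of_mem_primeFactors hp)
      omega
  -- the sum over the moduli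
  have hsum : ∑ e ∈ (ME A K0 T).filter (fun e => a ≡ b [MOD e] ∧ chi e a),
      κ ^ e.primeFactors.card ≤ (κ + 1) ^ (S2 a b).card := by
    have h1 := Finset.sum_pow_mul_eq_add_pow κ 1 (S2 (a : ℤ) b)
    simp only [one_pow, mul_one] at h1
    rw [← h1]
    have hinj : Set.InjOn Nat.primeFactors
        (((ME A K0 T).filter (fun e => a ≡ b [MOD e] ∧ chi e a) : Finset ℕ) : Set ℕ) := by
      intro e he e' he' h
      rw [mem_coe, mem_filter] at he he'
      rw [← Nat.prod_primeFactors_of_squarefree (me_sqf he.1),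
        ← Nat.prod_primeFactors_of_squarefree (me_sqf he'.1), h]
    rw [← Finset.sum_image (g := Nat.primeFactors) (f := fun t : Finset ℕ => κ ^ t.card) hinj]
    apply Finset.sum_le_sum_of_subset_of_nonneg
    · intro t ht
      rw [mem_image] at ht
      obtain ⟨e, he, rfl⟩ := ht
      rw [mem_filter] at he
      rw [mem_powerset]
      intro p hp
      have hpp := Nat.prime_of_mem_primeFactors hp
      have hpe := Nat.dvd_of_mem_primeFactors hp
      have h5 := five_le_wT A T
      have hpw := (me_prime he.1 hpp hpe).1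
      unfold S2
      rw [mem_filter, Nat.mem_primeFactors]
      refine ⟨⟨hpp, ?_, ?_⟩, by omega, he.2.2 p hpp hpe⟩
      · rw [← Int.natCast_dvd]
        have h2 : a ≡ b [MOD p] := he.2.1.of_dvd hpe
        have h3 := (Int.natCast_modEq_iff.2 h2).dvd
        rw [← neg_sub] at h3
        exact (dvd_neg.1 h3)
      · rw [Int.natAbs_ne_zero]
        intro h0
        apply hne
        have : (a : ℤ) = b := by linarith
        exact_mod_cast this
    · intro t _ _
      positivity
  have hLHS : ∑ e ∈ ME A K0 T, κ ^ e.primeFactors.card * FF z (wT A T) e a b =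
      z ^ (a.primeFactors.card + b.primeFactors.card) *
        ∑ e ∈ (ME A K0 T).filter (fun e => a ≡ b [MOD e] ∧ chi e a),
          κ ^ e.primeFactors.card := by
    rw [Finset.sum_filter, Finset.mul_sum]
    apply Finset.sum_congr rfl
    intro e _
    unfold FF
    split_ifs
    · rw [hca, hcb, pow_add]
      ring
    · simp
  rw [hLHS]
  refine (mul_le_mul_of_nonneg_left hsum (by positivity)).trans (le_of_eq ?_)
  have h2 : κ + 1 = (2 : ℝ) ^ s := by rw [hκd]; ring
  rw [h2, hz, ← Real.rpow_natCast, ← Real.rpow_natCast, ← Real.rpow_mul (by norm_num),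
    ← Real.rpow_mul (by norm_num), ← Real.rpow_add (by norm_num), hT2]
  congr 1
  push_cast
  ring

end Pool.Agent.W839.IM
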